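import Pool.Agent.FBuild.Roots
import Pool.Agent.SurfSub.Defs

/-!
Reduced words of a polygon reflection group stay reduced in a Coxeter group containing the polygon.
-/

set_option autoImplicit false

namespace Pool.Agent.FBuild

open CoxeterSystem Pool.Agent.SurfSub

section

variable {B W B' W' : Type} [Group W] [Group W'] {M : CoxeterMatrix B} {M' : CoxeterMatrix B'}
  (cs : CoxeterSystem M W) (cs' : CoxeterSystem M' W') (t : B' → B)

theorem game_comap (hM : ∀ i j, M' i j = M (t i) (t j)) (ω : List B') (v : B → ℝ) :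
    (fun i => game cs (cs.wordProd (ω.map t)) v (t i)) =
      game cs' (cs'.wordProd ω) (fun i => v (t i)) := by
  have hk : ∀ i j, kM M' i j = kM M (t i) (t j) := fun i j => by rw [kM, kM, hM]
  induction ω with
  | nil => simp
  | cons i ω ih =>
    rw [List.map_cons, wordProd_cons, wordProd_cons, map_mul, map_mul, game_simple, game_simple]
    have h1 : (act (kM M') i * game cs' (cs'.wordProd ω)) (fun i => v (t i)) =
        act (kM M') i (game cs' (cs'.wordProd ω) (fun i => v (t i))) := rfl
    rw [h1, ← ih]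
    funext j
    show act (kM M) (t i) (game cs (cs.wordProd (ω.map t)) v) (t j) = _
    rw [act_apply, act_apply, hk]

theorem isReduced_cons (i : B) (ω : List B) : cs.IsReduced (i :: ω) ↔
    cs.IsReduced ω ∧ cs.length (cs.wordProd ω) < cs.length (cs.simple i * cs.wordProd ω) := by
  unfold CoxeterSystem.IsReduced
  rw [wordProd_cons, List.length_cons]
  have h1 := cs.length_wordProd_le ω
  rcases cs.length_simple_mul (cs.wordProd ω) i with h2 | h2
  · constructor
    · intro h; constructor <;> omega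
    · rintro ⟨h3, h4⟩; omega
  · constructor
    · intro h; constructor <;> omega
    · rintro ⟨h3, h4⟩; omega

theorem isReduced_map (hM : ∀ i j, M' i j = M (t i) (t j)) (ω : List B')
    (h : cs'.IsReduced ω) : cs.IsReduced (ω.map t) := by
  induction ω with
  | nil => simp [CoxeterSystem.IsReduced]
  | cons i ω ih =>
    rw [isReduced_cons] at h
    rw [List.map_cons, isReduced_cons]
    refine ⟨ih h.1, ?_⟩
    rw [game_iff cs (fun _ => 1) (fun _ => one_pos)]
    have h2 := (game_iff cs' (fun _ => 1) (fun _ => one_pos) _ _).1 h.2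
    have h3 := congrFun (game_comap cs cs' t hM ω (fun _ => 1)) i
    rw [← h3] at h2
    exact h2

end

theorem poly_sq {n : ℕ} (k : ZMod n → ℕ) (i : ZMod n) : Poly.s k i * Poly.s k i = 1 := by
  have h : (PresentedGroup.mk (polyRels n k)) (FreeGroup.of i ^ 2) = 1 :=
    PresentedGroup.one_of_mem (Or.inl ⟨i, rfl⟩)
  rw [map_pow, pow_two] at h
  exact h

theorem poly_rel {n : ℕ} (k : ZMod n → ℕ) (i : ZMod n) :
    (Poly.s k i * Poly.s k (i + 1)) ^ k i = 1 := by
  have h : (PresentedGroup.mk (polyRels n k)) ((FreeGroup.of i * FreeGroup.of (i + 1)) ^ k i) = 1 :=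
    PresentedGroup.one_of_mem (Or.inr ⟨i, rfl⟩)
  rw [map_pow, map_mul] at h
  exact h

/-- Homomorphisms from polygon groups. -/
theorem poly_hom {n : ℕ} (k : ZMod n → ℕ) {G : Type} [Group G] (r : ZMod n → G)
    (h1 : ∀ i, r i * r i = 1) (h2 : ∀ i, (r i * r (i + 1)) ^ k i = 1) :
    ∃ f : Poly n k →* G, ∀ i, f (Poly.s k i) = r i := by
  have hrel : ∀ x ∈ polyRels n k, FreeGroup.lift r x = 1 := by
    rintro x (⟨j, rfl⟩ | ⟨j, rfl⟩)
    · rw [map_pow, FreeGroup.lift_apply_of, pow_two, h1]
    · rw [map_pow, map_mul, FreeGroup.lift_apply_of, FreeGroup.lift_apply_of, h2]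
  exact ⟨PresentedGroup.toGroup hrel, fun i => PresentedGroup.toGroup.of hrel⟩

/-- Nontrivial elements of a polygon group have nonempty reduced words. -/
theorem poly_word {B W : Type} [Group W] {M : CoxeterMatrix B} (cs : CoxeterSystem M W) (n : ℕ)
    (t : ZMod n → B) (ht : Function.Injective t) (k : ZMod n → ℕ)
    (hk : ∀ i, M (t i) (t (i + 1)) = k i)
    (hnon : ∀ i j, j ≠ i → j ≠ i + 1 → i ≠ j + 1 → M (t i) (t j) = 0)
    (x : Poly n k) (hx : x ≠ 1) :
    ∃ ω : List (ZMod n), ω ≠ [] ∧ x = (ω.map (Poly.s k)).prod ∧ cs.IsReduced (ω.map t) := by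
  set M' : CoxeterMatrix (ZMod n) :=
    { M := fun i j => M (t i) (t j)
      isSymm := by
        ext i j
        exact M.symmetric _ _
      diagonal := fun i => M.diagonal _
      off_diagonal := fun i j hij => M.off_diagonal _ _ fun h => hij (ht h) } with hM'
  have hMM : ∀ i j, M' i j = M (t i) (t j) := fun i j => rfl
  set cs' := M'.toCoxeterSystem with hcs'
  obtain ⟨φ, hφ⟩ := poly_hom k (fun i => cs'.simple i) (fun i => cs'.simple_mul_simple_self i)
    (fun i => by
      have := cs'.simple_mul_simple_pow i (i + 1)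
      rwa [hMM, hk] at this)
  have hinv : ∀ i, (Poly.s k i)⁻¹ = Poly.s k i := fun i =>
    (eq_inv_of_mul_eq_one_left (poly_sq k i)).symm
  have hlift : M'.IsLiftable (Poly.s k) := by
    intro i j
    rw [hMM]
    by_cases h1 : j = i
    · subst h1
      rw [M.diagonal, pow_one, poly_sq]
    by_cases h2 : j = i + 1
    · subst h2
      rw [hk, poly_rel]
    by_cases h3 : i = j + 1
    · subst h3
      have e1 : Poly.s k (j + 1) * Poly.s k j = (Poly.s k j * Poly.s k (j + 1))⁻¹ := by
        rw [mul_inv_rev, hinv, hinv]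
      rw [M.symmetric, hk, e1, inv_pow, poly_rel, inv_one]
    · rw [hnon i j h1 h2 h3, pow_zero]
  set ψ : M'.Group →* Poly n k := cs'.lift ⟨Poly.s k, hlift⟩ with hψ
  have hψs : ∀ i, ψ (cs'.simple i) = Poly.s k i := fun i => cs'.lift_apply_simple hlift i
  have hψφ : ∀ y, ψ (φ y) = y := by
    intro y
    have h1 : ψ.comp φ = MonoidHom.id _ := by
      apply PresentedGroup.ext
      intro i
      show ψ (φ (Poly.s k i)) = Poly.s k i
      rw [hφ, hψs]
    exact congrArg (fun f : Poly n k →* Poly n k => f y) h1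
  obtain ⟨ω, hω, he⟩ := cs'.exists_isReduced (φ x)
  refine ⟨ω, ?_, ?_, isReduced_map cs cs' t hMM ω hω⟩
  · rintro rfl
    rw [wordProd_nil] at he
    apply hx
    rw [← hψφ x, he, map_one]
  · rw [← hψφ x, he, wordProd, map_list_prod, List.map_map]
    congr 1

end Pool.Agent.FBuild
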