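import Mathlib

/-!
Tiles: finite unions of chambers that are fundamental domains of reflection subgroups.
Combinatorial data, the action on pairs, and the checks.
-/

set_option autoImplicit false

namespace Pool.Agent.FBuild

open CoxeterSystem

/-- Alternating lists. -/
def altL {A : Type} (a b : A) : ℕ → List A
  | 0 => []
  | n + 1 => a :: altL b a n

/-- Combinatorial data of a tile: chambers `P`, neighbours `d`, and the side crossed, if any. -/
structure TileD (B J P : Type) where
  d : P → B → P
  c : P → B → Option J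

namespace TileD

variable {B J P : Type} (D : TileD B J P)

/-- The end of a gallery and the sides crossed. -/
def walk : P → List B → P × List J
  | x, [] => (x, [])
  | x, s :: ω => ((walk (D.d x s) ω).1, (D.c x s).toList ++ (walk (D.d x s) ω).2)

/-- The edges of a gallery. -/
def edges : P → List B → List (P × B)
  | _, [] => []
  | x, s :: ω => (x, s) :: edges (D.d x s) ω

theorem walk_nil (x : P) : D.walk x [] = (x, []) := rfl

theorem walk_cons (x : P) (s : B) (ω : List B) : D.walk x (s :: ω) =
    ((D.walk (D.d x s) ω).1, (D.c x s).toList ++ (D.walk (D.d x s) ω).2) := rfl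

theorem walk_append (x : P) (ω ω' : List B) : D.walk x (ω ++ ω') =
    ((D.walk (D.walk x ω).1 ω').1, (D.walk x ω).2 ++ (D.walk (D.walk x ω).1 ω').2) := by
  induction ω generalizing x with
  | nil => simp [walk]
  | cons s ω ih =>
    rw [List.cons_append, walk_cons, walk_cons, ih]
    simp

/-- Lists of sides whose product is trivial. -/
def OkL (m' : J → J → ℕ) (l : List J) : Prop :=
  l = [] ∨ (∃ j, l = [j, j]) ∨ ∃ i j, l = altL i j (2 * m' i j)

/-- The checks of a tile. -/
structure Check (m : B → B → ℕ) (m' : J → J → ℕ) (p₀ : P) (wd : P → List B) (rep : J → P × B)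
    (rank : P → B → ℕ) : Prop where
  /-- neighbours -/
  inv : ∀ x s, D.d (D.d x s) s = x ∧ D.c (D.d x s) s = D.c x s
  /-- crossing a side does not change the chamber -/
  cross : ∀ x s, D.c x s ≠ none → D.d x s = x
  /-- vertices -/
  braid : ∀ x s t, s ≠ t → (D.walk x (altL s t (2 * m s t))).1 = x ∧
    OkL m' (D.walk x (altL s t (2 * m s t))).2
  /-- words -/
  word : ∀ x, D.walk p₀ (wd x) = (x, [])
  word0 : wd p₀ = []
  /-- sides -/
  side : ∀ j, D.c (rep j).1 (rep j).2 = some j
  /-- corners -/
  corner : ∀ i j, i ≠ j → m' i j ≠ 0 → ∃ x s t, s ≠ t ∧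
    D.walk x (altL s t (2 * m s t)) = (x, altL i j (2 * m' i j))
  /-- the order of the edges -/
  edge : ∀ x s, (D.c x s = none ∧ (wd (D.d x s) = wd x ++ [s] ∨ wd x = wd (D.d x s) ++ [s])) ∨
    (∃ j, D.c x s = some j ∧ rep j = (x, s)) ∨
    ∃ t, s ≠ t ∧ m s t ≠ 0 ∧ (D.walk x (altL t s (2 * m s t - 1))).1 = D.d x s ∧
      (∀ e ∈ D.edges x (altL t s (2 * m s t - 1)), rank e.1 e.2 < rank x s) ∧
      ((D.c x s = none ∧ ((D.walk x (altL t s (2 * m s t - 1))).2 = [] ∨
        ∃ j, (D.walk x (altL t s (2 * m s t - 1))).2 = [j, j])) ∨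
        ∃ j, D.c x s = some j ∧ (D.walk x (altL t s (2 * m s t - 1))).2 = [j])

end TileD

section

variable {B J P W W' : Type} [Group W] [Group W'] {M : CoxeterMatrix B} {M' : CoxeterMatrix J}
  (cs : CoxeterSystem M W) (cs' : CoxeterSystem M' W') (D : TileD B J P)

theorem altL_even {A : Type} (a b : A) (n : ℕ) : altL a b (2 * (n + 1)) = a :: b :: altL a b (2 * n) := rfl

theorem prod_altL {G A : Type} [Group G] (u : A → G) (a b : A) (n : ℕ) :
    ((altL a b (2 * n)).map u).prod = (u a * u b) ^ n := by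
  induction n with
  | zero => simp [altL]
  | succ n ih =>
    rw [altL_even, List.map_cons, List.map_cons, List.prod_cons, List.prod_cons, ih, pow_succ',
      mul_assoc]

/-- The group element of a list of sides. -/
def sideProd (l : List J) : W' := (l.map cs'.simple).prod

/-- The step of the action on pairs. -/
def stepF (s : B) (y : W' × P) : W' × P :=
  (y.1 * (match D.c y.2 s with
    | none => 1
    | some j => cs'.simple j), D.d y.2 s)

theorem stepF_eq (s : B) (y : W' × P) : stepF cs' D s y =
    (y.1 * sideProd cs' (D.c y.2 s).toList, D.d y.2 s) := by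
  unfold stepF sideProd
  cases D.c y.2 s <;> simp

theorem foldl_step (ω : List B) (y : W' × P) : ω.foldl (fun y s => stepF cs' D s y) y =
    (y.1 * sideProd cs' (D.walk y.2 ω).2, (D.walk y.2 ω).1) := by
  induction ω generalizing y with
  | nil => simp [TileD.walk, sideProd]
  | cons s ω ih =>
    rw [List.foldl_cons, ih, stepF_eq, TileD.walk_cons]
    refine Prod.ext ?_ rfl
    simp only [sideProd, List.map_append, List.prod_append, mul_assoc]

variable {cs cs' D} {m : B → B → ℕ} {m' : J → J → ℕ} {p₀ : P} {wd : P → List B} {rep : J → P × B}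
  {rank : P → B → ℕ}

theorem okL_prod (hm' : ∀ i j, M' i j = m' i j) {l : List J} (h : TileD.OkL m' l) :
    sideProd cs' l = 1 := by
  rcases h with rfl | ⟨j, rfl⟩ | ⟨i, j, rfl⟩
  · simp [sideProd]
  · simp [sideProd]
  · rw [sideProd, prod_altL, ← hm', cs'.simple_mul_simple_pow]

theorem stepF_step (hD : D.Check m m' p₀ wd rep rank) (s : B) (y : W' × P) :
    stepF cs' D s (stepF cs' D s y) = y := by
  obtain ⟨h1, h2⟩ := hD.inv y.2 s
  rw [stepF_eq, stepF_eq]
  simp only [h1, h2]
  refine Prod.ext ?_ rfl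
  simp only
  cases D.c y.2 s with
  | none => simp [sideProd]
  | some j => simp [sideProd]

/-- The step as a permutation. -/
def stepP (cs' : CoxeterSystem M' W') (hD : D.Check m m' p₀ wd rep rank) (s : B) :
    Equiv.Perm (W' × P) where
  toFun := stepF cs' D s
  invFun := stepF cs' D s
  left_inv := stepF_step hD s
  right_inv := stepF_step hD s

theorem stepP_apply (hD : D.Check m m' p₀ wd rep rank) (s : B) (y : W' × P) :
    stepP cs' hD s y = stepF cs' D s y := rfl

theorem stepP_pow (hD : D.Check m m' p₀ wd rep rank) (s t : B) (n : ℕ) (y : W' × P) :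
    ((stepP cs' hD s * stepP cs' hD t) ^ n) y =
      (altL t s (2 * n)).foldl (fun y s => stepF cs' D s y) y := by
  induction n generalizing y with
  | zero => simp [altL]
  | succ n ih =>
    rw [pow_succ, Equiv.Perm.mul_apply, ih, altL_even, List.foldl_cons, List.foldl_cons]
    rfl

theorem stepP_lift (hD : D.Check m m' p₀ wd rep rank) (hm : ∀ s t, M s t = m s t)
    (hm' : ∀ i j, M' i j = m' i j) : M.IsLiftable (stepP cs' hD) := by
  intro s t
  by_cases hst : s = t
  · subst hst
    rw [M.diagonal, pow_one]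
    ext1 y
    exact stepF_step hD s y
  · ext1 y
    rw [stepP_pow, foldl_step]
    obtain ⟨h1, h2⟩ := hD.braid y.2 t s (Ne.symm hst)
    have h3 : M s t = m t s := by rw [M.symmetric, hm]
    rw [h3, h1, okL_prod hm' h2, mul_one]
    rfl

/-- The action on pairs. -/
noncomputable def tileHom (cs : CoxeterSystem M W) (cs' : CoxeterSystem M' W')
    (hD : D.Check m m' p₀ wd rep rank) (hm : ∀ s t, M s t = m s t)
    (hm' : ∀ i j, M' i j = m' i j) : W →* Equiv.Perm (W' × P) :=
  cs.lift ⟨stepP cs' hD, stepP_lift hD hm hm'⟩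

theorem tileHom_simple (hD : D.Check m m' p₀ wd rep rank) (hm : ∀ s t, M s t = m s t)
    (hm' : ∀ i j, M' i j = m' i j) (s : B) :
    tileHom cs cs' hD hm hm' (cs.simple s) = stepP cs' hD s :=
  cs.lift_apply_simple (stepP_lift hD hm hm') s

theorem tileHom_word (hD : D.Check m m' p₀ wd rep rank) (hm : ∀ s t, M s t = m s t)
    (hm' : ∀ i j, M' i j = m' i j) (ω : List B) (y : W' × P) :
    tileHom cs cs' hD hm hm' (cs.wordProd ω)⁻¹ y =
      (y.1 * sideProd cs' (D.walk y.2 ω).2, (D.walk y.2 ω).1) := by
  rw [← foldl_step]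
  induction ω generalizing y with
  | nil => simp
  | cons s ω ih =>
    rw [wordProd_cons, mul_inv_rev, map_mul, Equiv.Perm.mul_apply, List.foldl_cons, inv_simple,
      tileHom_simple, stepP_apply, ih]

theorem tileHom_left (hD : D.Check m m' p₀ wd rep rank) (hm : ∀ s t, M s t = m s t)
    (hm' : ∀ i j, M' i j = m' i j) (w : W) (h : W') (y : W' × P) :
    tileHom cs cs' hD hm hm' w (h * y.1, y.2) =
      (h * (tileHom cs cs' hD hm hm' w y).1, (tileHom cs cs' hD hm hm' w y).2) := by
  obtain ⟨ω, -, hω⟩ := cs.exists_isReduced w⁻¹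
  have hw : w = (cs.wordProd ω)⁻¹ := by rw [← hω, inv_inv]
  rw [hw, tileHom_word, tileHom_word, mul_assoc]

/-! ### Galleries inside `W` -/

/-- The element of a chamber of the tile. -/
def tv (cs : CoxeterSystem M W) (wd : P → List B) (x : P) : W := cs.wordProd (wd x)

/-- The reflection of a side. -/
def tg (cs : CoxeterSystem M W) (wd : P → List B) (rep : J → P × B) (j : J) : W :=
  tv cs wd (rep j).1 * cs.simple (rep j).2 * (tv cs wd (rep j).1)⁻¹

/-- The condition on an edge. -/
def Good (cs : CoxeterSystem M W) (D : TileD B J P) (wd : P → List B) (rep : J → P × B) (x : P)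
    (s : B) : Prop :=
  tv cs wd x * cs.simple s = ((D.c x s).toList.map (tg cs wd rep)).prod * tv cs wd (D.d x s)

theorem tg_sq (cs : CoxeterSystem M W) (wd : P → List B) (rep : J → P × B) (j : J) :
    tg cs wd rep j * tg cs wd rep j = 1 := by
  unfold tg
  have : cs.simple (rep j).2 * cs.simple (rep j).2 = 1 := cs.simple_mul_simple_self _
  calc _ = tv cs wd (rep j).1 * (cs.simple (rep j).2 * cs.simple (rep j).2) *
        (tv cs wd (rep j).1)⁻¹ := by group
    _ = 1 := by rw [this]; group

theorem good_path (ω : List B) (x : P)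
    (h : ∀ e ∈ D.edges x ω, Good cs D wd rep e.1 e.2) :
    tv cs wd x * cs.wordProd ω =
      ((D.walk x ω).2.map (tg cs wd rep)).prod * tv cs wd (D.walk x ω).1 := by
  induction ω generalizing x with
  | nil => simp [TileD.walk]
  | cons s ω ih =>
    have h1 : Good cs D wd rep x s := h (x, s) List.mem_cons_self
    have h2 := ih (D.d x s) (fun e he => h e (List.mem_cons_of_mem _ he))
    rw [wordProd_cons, ← mul_assoc, h1, mul_assoc, h2, TileD.walk_cons]
    simp only [List.map_append, List.prod_append, mul_assoc]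

theorem wordProd_alt_odd (hm : ∀ s t, M s t = m s t) (s t : B) (h0 : m s t ≠ 0) :
    cs.wordProd (altL t s (2 * m s t - 1)) = cs.simple s := by
  obtain ⟨n, hn⟩ : ∃ n, m s t = n + 1 := ⟨m s t - 1, by omega⟩
  have h1 : altL s t (2 * m s t) = s :: altL t s (2 * m s t - 1) := by
    rw [hn, show 2 * (n + 1) = (2 * n + 1) + 1 by ring]
    rfl
  have h2 : cs.wordProd (altL s t (2 * m s t)) = 1 := by
    rw [wordProd, prod_altL, ← hm, cs.simple_mul_simple_pow]
  rw [h1, wordProd_cons] at h2
  exact (eq_inv_of_mul_eq_one_right h2).trans (cs.inv_simple s)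

theorem good_all (hD : D.Check m m' p₀ wd rep rank) (hm : ∀ s t, M s t = m s t) (x : P) (s : B) :
    Good cs D wd rep x s := by
  induction hr : rank x s using Nat.strong_induction_on generalizing x s with
  | _ r ih =>
    subst hr
    rcases hD.edge x s with ⟨h1, h2⟩ | ⟨j, h1, h2⟩ | ⟨t, h1, h0, h2, h3, h4⟩
    · unfold Good
      rw [h1]
      rcases h2 with h2 | h2
      · simp [tv, h2, wordProd_append]
      · simp [tv, h2, wordProd_append]
    · have hd : D.d x s = x := hD.cross x s (by rw [h1]; simp)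
      unfold Good
      rw [h1, hd]
      simp only [Option.toList_some, List.map_cons, List.map_nil, List.prod_cons, List.prod_nil,
        mul_one, tg, h2]
      group
    · have h5 := good_path (cs := cs) (altL t s (2 * m s t - 1)) x
        (fun e he => ih _ (h3 e he) e.1 e.2 rfl)
      rw [wordProd_alt_odd hm s t h0, h2] at h5
      unfold Good
      rw [h5]
      congr 1
      rcases h4 with ⟨h6, h7 | ⟨j, h7⟩⟩ | ⟨j, h6, h7⟩
      · rw [h6, h7]; rfl
      · rw [h6, h7]
        simp only [List.map_cons, List.map_nil, List.prod_cons, List.prod_nil, mul_one, tg_sq]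
        rfl
      · rw [h6, h7]; rfl

theorem tg_lift (hD : D.Check m m' p₀ wd rep rank) (hm : ∀ s t, M s t = m s t)
    (hm' : ∀ i j, M' i j = m' i j) : M'.IsLiftable (tg cs wd rep) := by
  intro i j
  by_cases hij : i = j
  · subst hij
    rw [M'.diagonal, pow_one, tg_sq]
  by_cases h0 : m' i j = 0
  · rw [hm', h0, pow_zero]
  obtain ⟨x, s, t, hst, h⟩ := hD.corner i j hij h0
  have h5 := good_path (cs := cs) (altL s t (2 * m s t)) x
    (fun e _ => good_all hD hm e.1 e.2)
  rw [h, wordProd, prod_altL, ← hm, cs.simple_mul_simple_pow, mul_one, prod_altL] at h5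
  rw [hm']
  exact (mul_eq_right.1 h5.symm)

/-- The homomorphism of the reflection subgroup. -/
noncomputable def tileF (cs : CoxeterSystem M W) (cs' : CoxeterSystem M' W')
    (hD : D.Check m m' p₀ wd rep rank) (hm : ∀ s t, M s t = m s t)
    (hm' : ∀ i j, M' i j = m' i j) : W' →* W :=
  cs'.lift ⟨tg cs wd rep, tg_lift hD hm hm'⟩

theorem tileF_simple (hD : D.Check m m' p₀ wd rep rank) (hm : ∀ s t, M s t = m s t)
    (hm' : ∀ i j, M' i j = m' i j) (j : J) :
    tileF cs cs' hD hm hm' (cs'.simple j) = tg cs wd rep j :=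
  cs'.lift_apply_simple (tg_lift hD hm hm') j

theorem tileF_walk (hD : D.Check m m' p₀ wd rep rank) (hm : ∀ s t, M s t = m s t)
    (hm' : ∀ i j, M' i j = m' i j) (x : P) (ω : List B) :
    tv cs wd x * cs.wordProd ω =
      tileF cs cs' hD hm hm' (sideProd cs' (D.walk x ω).2) * tv cs wd (D.walk x ω).1 := by
  rw [good_path (cs := cs) (D := D) (rep := rep) ω x (fun e _ => good_all hD hm e.1 e.2), sideProd,
    map_list_prod, List.map_map]
  congr 3
  funext j
  exact (tileF_simple hD hm hm' j).symm

/-- Coordinates in the tiling. -/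
theorem tile_coord (hD : D.Check m m' p₀ wd rep rank) (hm : ∀ s t, M s t = m s t)
    (hm' : ∀ i j, M' i j = m' i j) (q : W') (x : P) :
    tileHom cs cs' hD hm hm' (tileF cs cs' hD hm hm' q * tv cs wd x)⁻¹ (1, p₀) = (q, x) := by
  have c2 : ∀ x, tileHom cs cs' hD hm hm' (tv cs wd x)⁻¹ (1, p₀) = (1, x) := by
    intro x
    rw [tv, tileHom_word, hD.word]
    simp [sideProd]
  have c1 : ∀ j, tileHom cs cs' hD hm hm' (tg cs wd rep j) (1, p₀) = (cs'.simple j, p₀) := by
    intro j
    rw [tg, map_mul, map_mul, Equiv.Perm.mul_apply, Equiv.Perm.mul_apply, c2, tileHom_simple,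
      stepP_apply, stepF_eq, hD.side]
    have hd : D.d (rep j).1 (rep j).2 = (rep j).1 := hD.cross _ _ (by rw [hD.side]; simp)
    have e1 : (((1 : W') * sideProd cs' (some j).toList, D.d (rep j).1 (rep j).2) : W' × P) =
        (cs'.simple j * 1, (rep j).1) := by
      rw [hd]
      simp [sideProd]
    simp only
    rw [e1, tileHom_left (cs := cs) (cs' := cs') hD hm hm' _ (cs'.simple j) (1, (rep j).1)]
    have e2 : tileHom cs cs' hD hm hm' (tv cs wd (rep j).1) (1, (rep j).1) = (1, p₀) := by
      rw [← c2, ← Equiv.Perm.mul_apply, ← map_mul, mul_inv_cancel, map_one]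
      rfl
    rw [e2, mul_one]
  have c3 : ∀ q, tileHom cs cs' hD hm hm' (tileF cs cs' hD hm hm' q)⁻¹ (1, p₀) = (q, p₀) := by
    intro q
    induction q using cs'.simple_induction_left with
    | one => simp
    | mul_simple_left q j ih =>
      rw [map_mul, tileF_simple, mul_inv_rev, map_mul, Equiv.Perm.mul_apply,
        ← eq_inv_of_mul_eq_one_left (tg_sq cs wd rep j), c1]
      have := tileHom_left (cs := cs) (cs' := cs') hD hm hm' (tileF cs cs' hD hm hm' q)⁻¹ (cs'.simple j) (1, p₀)
      rw [mul_one] at this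
      rw [this, ih]
  rw [mul_inv_rev, map_mul, Equiv.Perm.mul_apply, c3]
  have := tileHom_left (cs := cs) (cs' := cs') hD hm hm' (tv cs wd x)⁻¹ q (1, p₀)
  rw [mul_one] at this
  rw [this, c2, mul_one]

theorem tile_inj (hD : D.Check m m' p₀ wd rep rank) (hm : ∀ s t, M s t = m s t)
    (hm' : ∀ i j, M' i j = m' i j) {q q' : W'} {x x' : P}
    (h : tileF cs cs' hD hm hm' q * tv cs wd x = tileF cs cs' hD hm hm' q' * tv cs wd x') :
    q = q' ∧ x = x' := by
  have h1 := tile_coord (cs := cs) (cs' := cs') hD hm hm' q x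
  rw [h, tile_coord] at h1
  exact ⟨(congrArg Prod.fst h1).symm, (congrArg Prod.snd h1).symm⟩

end

end Pool.Agent.FBuild
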