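import Mathlib

/-!
The dual reflection representation (numbers game) with parameters.
-/

set_option autoImplicit false

namespace Pool.Agent.FBuild

section

variable {B F : Type} [Field F]

/-- The reflection `i` in the numbers game. -/
def act (κ : B → B → F) (i : B) : Module.End F (B → F) where
  toFun v := v + v i • κ i
  map_add' v w := by
    ext t
    simp only [Pi.add_apply, Pi.smul_apply, smul_eq_mul]; ring
  map_smul' a v := by
    ext t
    simp only [Pi.add_apply, Pi.smul_apply, smul_eq_mul, RingHom.id_apply]; ring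

theorem act_apply (κ : B → B → F) (i : B) (v : B → F) (t : B) :
    act κ i v t = v t + v i * κ i t := rfl

theorem act_apply' (κ : B → B → F) (i : B) (v : B → F) : act κ i v = v + v i • κ i := rfl

theorem act_sq (κ : B → B → F) (i : B) (hi : κ i i = -2) : act κ i * act κ i = 1 := by
  ext1 v
  ext t
  show act κ i (act κ i v) t = v t
  rw [act_apply, act_apply, act_apply, hi]
  ring

theorem act_pair (κ : B → B → F) (i j : B) (hi : κ i i = -2) (hj : κ j j = -2) (u : F)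
    (hu0 : u ≠ 0) (hu1 : u ^ 2 ≠ 1) (hij : κ i j = u + u⁻¹) (hji : κ j i = u + u⁻¹) (n : ℕ)
    (v : B → F) :
    ((act κ i * act κ j) ^ n) v = v +
      (((v i + u * v j) / (u - u⁻¹)) * ∑ r ∈ Finset.range n, (u ^ 2) ^ r) • (u • κ i + κ j) +
      ((-(v i + u⁻¹ * v j) / (u - u⁻¹)) * ∑ r ∈ Finset.range n, (u⁻¹ ^ 2) ^ r) •
        (u⁻¹ • κ i + κ j) := by
  have hd : u - u⁻¹ ≠ 0 := by
    intro h
    apply hu1
    have : u = u⁻¹ := sub_eq_zero.1 h
    rw [pow_two]
    nth_rewrite 2 [this]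
    exact mul_inv_cancel₀ hu0
  have hsplit : ∀ v : B → F, (act κ i * act κ j) v = v +
      ((v i + u * v j) / (u - u⁻¹)) • (u • κ i + κ j) +
      (-(v i + u⁻¹ * v j) / (u - u⁻¹)) • (u⁻¹ • κ i + κ j) := by
    intro v
    ext t
    show act κ i (act κ j v) t = _
    simp only [act_apply, Pi.add_apply, Pi.smul_apply, smul_eq_mul, hji]
    field_simp
    ring
  have heig : ∀ w : F, w ≠ 0 → w ^ 2 - (u + u⁻¹) * w + 1 = 0 →
      (act κ i * act κ j) (w • κ i + κ j) = w ^ 2 • (w • κ i + κ j) := by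
    intro w hw0 hw
    ext t
    show act κ i (act κ j (w • κ i + κ j)) t = _
    simp only [act_apply, Pi.add_apply, Pi.smul_apply, smul_eq_mul, hji, hij, hi, hj]
    linear_combination (-(κ j t) - w * κ i t - (u + u⁻¹) * κ i t) * hw
  have hw1 : u ^ 2 - (u + u⁻¹) * u + 1 = 0 := by field_simp; ring
  have hw2 : u⁻¹ ^ 2 - (u + u⁻¹) * u⁻¹ + 1 = 0 := by field_simp; ring
  have h1 := heig u hu0 hw1
  have h2 := heig u⁻¹ (inv_ne_zero hu0) hw2
  induction n with
  | zero => simp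
  | succ n ih =>
    rw [pow_succ']
    show (act κ i * act κ j) (((act κ i * act κ j) ^ n) v) = _
    rw [ih, map_add, map_add, map_smul, map_smul, h1, h2, hsplit v, Finset.sum_range_succ',
      Finset.sum_range_succ']
    simp only [pow_zero, pow_succ, ← Finset.sum_mul]
    ext t
    simp only [Pi.add_apply, Pi.smul_apply, smul_eq_mul]
    ring

theorem act_rel (κ : B → B → F) (i j : B) (hi : κ i i = -2) (hj : κ j j = -2) (u : F)
    (hu0 : u ≠ 0) (hu1 : u ^ 2 ≠ 1) (hij : κ i j = u + u⁻¹) (hji : κ j i = u + u⁻¹) (m : ℕ)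
    (hm : u ^ (2 * m) = 1) : (act κ i * act κ j) ^ m = 1 := by
  ext1 v
  rw [act_pair κ i j hi hj u hu0 hu1 hij hji m v]
  have h1 : ∑ r ∈ Finset.range m, (u ^ 2) ^ r = 0 := by
    rw [geom_sum_eq hu1, ← pow_mul, hm, sub_self, zero_div]
  have hu1' : u⁻¹ ^ 2 ≠ 1 := by
    rw [inv_pow]
    intro h
    exact hu1 (inv_eq_one.1 h)
  have h2 : ∑ r ∈ Finset.range m, (u⁻¹ ^ 2) ^ r = 0 := by
    rw [geom_sum_eq hu1', ← pow_mul, inv_pow, hm, inv_one, sub_self, zero_div]
  rw [h1, h2]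
  simp

/-- The order of the product of two reflections. -/
theorem act_order (κ : B → B → F) (i j : B) (hij' : i ≠ j) (hi : κ i i = -2) (hj : κ j j = -2)
    (u : F) (hu0 : u ≠ 0) (hu1 : u ^ 2 ≠ 1) (hij : κ i j = u + u⁻¹) (hji : κ j i = u + u⁻¹) (n : ℕ)
    (h : (act κ i * act κ j) ^ n = 1) : u ^ (2 * n) = 1 := by
  classical
  have hd : u - u⁻¹ ≠ 0 := by
    intro h
    apply hu1
    have : u = u⁻¹ := sub_eq_zero.1 h
    rw [pow_two]
    nth_rewrite 2 [this]
    exact mul_inv_cancel₀ hu0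
  set v : B → F := Pi.single i 1 with hv
  have hvi : v i = 1 := Pi.single_eq_same i 1
  have hvj : v j = 0 := Pi.single_eq_of_ne hij'.symm 1
  have h1 := act_pair κ i j hi hj u hu0 hu1 hij hji n v
  rw [h, hvi, hvj] at h1
  have h2 := congrFun h1 i
  have h3 := congrFun h1 j
  simp only [Module.End.one_apply, Pi.add_apply, Pi.smul_apply, smul_eq_mul, hi, hj, hij, hji,
    mul_zero, add_zero] at h2 h3
  set s₁ := ∑ r ∈ Finset.range n, (u ^ 2) ^ r with hs₁
  set s₂ := ∑ r ∈ Finset.range n, (u⁻¹ ^ 2) ^ r with hs₂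
  have h4 : s₁ = 0 := by
    have e1 : (1 / (u - u⁻¹)) * s₁ * (u * -2 + (u + u⁻¹)) +
        (-1 / (u - u⁻¹)) * s₂ * (u⁻¹ * -2 + (u + u⁻¹)) = 0 := by
      linear_combination -h2
    have e2 : (1 / (u - u⁻¹)) * s₁ * (u * (u + u⁻¹) + -2) +
        (-1 / (u - u⁻¹)) * s₂ * (u⁻¹ * (u + u⁻¹) + -2) = 0 := by
      linear_combination -h3
    have f1 : s₁ + s₂ = 0 := by
      have : (1 / (u - u⁻¹)) * s₁ * (-(u - u⁻¹)) + (-1 / (u - u⁻¹)) * s₂ * (u - u⁻¹) = 0 := by
        rw [← e1]; ring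
      rw [show (1 / (u - u⁻¹)) * s₁ * (-(u - u⁻¹)) + (-1 / (u - u⁻¹)) * s₂ * (u - u⁻¹) =
        -(s₁ + s₂) * ((u - u⁻¹) / (u - u⁻¹)) by ring, div_self hd] at this
      linear_combination -this
    have f2 : u * s₁ + u⁻¹ * s₂ = 0 := by
      have : (1 / (u - u⁻¹)) * s₁ * (u * (u - u⁻¹)) +
          (-1 / (u - u⁻¹)) * s₂ * (-(u⁻¹ * (u - u⁻¹))) = 0 := by
        rw [← e2]
        have : u * u⁻¹ = 1 := mul_inv_cancel₀ hu0
        linear_combination (1 / (u - u⁻¹) * s₁ * (-2) + (-1 / (u - u⁻¹)) * s₂ * (-2)) * this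
      rw [show (1 / (u - u⁻¹)) * s₁ * (u * (u - u⁻¹)) +
        (-1 / (u - u⁻¹)) * s₂ * (-(u⁻¹ * (u - u⁻¹))) =
        (u * s₁ + u⁻¹ * s₂) * ((u - u⁻¹) / (u - u⁻¹)) by ring, div_self hd] at this
      linear_combination this
    have f3 : (u - u⁻¹) * s₁ = 0 := by linear_combination f2 - u⁻¹ * f1
    exact (mul_eq_zero.1 f3).resolve_left hd
  have h5 : (u ^ 2 - 1) * s₁ = (u ^ 2) ^ n - 1 := by
    rw [mul_comm]; exact geom_sum_mul _ _
  rw [h4, mul_zero, ← pow_mul] at h5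
  exact (sub_eq_zero.1 h5.symm)

end

end Pool.Agent.FBuild
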