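import Pool.Agent.FBuild.Refl

/-!
Positivity in the numbers game of a Coxeter system: `ℓ (s w) > ℓ w` iff `(w v) s > 0`.
-/

set_option autoImplicit false

namespace Pool.Agent.FBuild

open CoxeterSystem

section rank2

/-- Alternating products in a monoid, starting with `x`. -/
def altM {P : Type} [Monoid P] (x y : P) : ℕ → P
  | 0 => 1
  | n + 1 => x * altM y x n

theorem altM_two {P : Type} [Monoid P] (x y : P) (n : ℕ) :
    altM x y (n + 2) = x * y * altM x y n := by
  simp [altM, mul_assoc]

theorem altM_even {P : Type} [Monoid P] (x y : P) (n : ℕ) : altM x y (2 * n) = (x * y) ^ n := by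
  induction n with
  | zero => simp [altM]
  | succ n ih =>
    rw [show 2 * (n + 1) = 2 * n + 2 by ring, altM_two, ih, pow_succ']

theorem altM_odd {P : Type} [Monoid P] (x y : P) (n : ℕ) :
    altM x y (2 * n + 1) = (x * y) ^ n * x := by
  induction n with
  | zero => simp [altM]
  | succ n ih =>
    rw [show 2 * (n + 1) + 1 = (2 * n + 1) + 2 by ring, altM_two, ih, pow_succ']
    simp [mul_assoc]

theorem altM_add {P : Type} [Monoid P] (x y : P) (n k : ℕ) :
    altM x y (n + k) = altM x y n * (if Even n then altM x y k else altM y x k) := by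
  induction n generalizing x y with
  | zero => simp [altM]
  | succ n ih =>
    rw [show n + 1 + k = (n + k) + 1 by ring, altM, altM, ih, mul_assoc]
    congr 2
    by_cases h : Even n
    · rw [if_pos h, if_neg (by rw [Nat.even_add_one]; simpa using h)]
    · rw [if_neg h, if_pos (by rw [Nat.even_add_one]; exact h)]

theorem altM_hom {P P' : Type} [Monoid P] [Monoid P'] (f : P →* P') (x y : P) (n : ℕ) :
    f (altM x y n) = altM (f x) (f y) n := by
  induction n generalizing x y with
  | zero => simp [altM]
  | succ n ih => rw [altM, altM, map_mul, ih]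

theorem altM_rel {P : Type} [Group P] (x y : P) (hx : x * x = 1) (hy : y * y = 1) (m : ℕ)
    (h : (x * y) ^ m = 1) : altM x y m = altM y x m := by
  have hxi : x⁻¹ = x := (eq_inv_of_mul_eq_one_left hx).symm
  have hyi : y⁻¹ = y := (eq_inv_of_mul_eq_one_left hy).symm
  have h1 : y * x = (x * y)⁻¹ := by rw [mul_inv_rev, hxi, hyi]
  obtain ⟨n, rfl | rfl⟩ := m.even_or_odd'
  · rw [altM_even, altM_even, h1, inv_pow]
    apply eq_inv_of_mul_eq_one_left
    rw [← pow_add, ← two_mul]; exact h
  · rw [altM_odd, altM_odd, h1, inv_pow]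
    have h2 : (x * y) ^ n * ((x * y) ^ n * x * y) = 1 := by
      rw [mul_assoc ((x * y) ^ n) x y, ← pow_succ, ← pow_add]
      rw [show n + (n + 1) = 2 * n + 1 by ring]; exact h
    have h3 : (x * y) ^ n * x * y = ((x * y) ^ n)⁻¹ := eq_inv_of_mul_eq_one_right h2
    rw [← h3, mul_assoc _ y y, hy, mul_one]

theorem rank2 {B : Type} (κ : B → B → ℝ) (c : ℝ) (V : ℕ → ℝ) (V0 : V 0 = 0) (V1 : V 1 = 1)
    (Vrec : ∀ n, V (n + 2) = c * V (n + 1) - V n) (v : B → ℝ) (n : ℕ) (s t : B)
    (hs : κ s s = -2) (ht : κ t t = -2) (hst : κ s t = c) (hts : κ t s = c) :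
    (altM (act κ t) (act κ s) n v) s = V (n + 1) * (if Even n then v s else v t) +
      V n * (if Even n then v t else v s) := by
  induction n using Nat.twoStepInduction generalizing s t with
  | zero => simp [altM, V0, V1]
  | one =>
    simp only [altM, mul_one, Nat.not_even_one, if_false, zero_add]
    rw [act_apply, hts, V1, Vrec 0, V1, V0]
    ring
  | more n ih1 ih2 =>
    have e1 : (altM (act κ t) (act κ s) (n + 2) v) s =
        -(altM (act κ t) (act κ s) n v) s + c * (altM (act κ s) (act κ t) (n + 1) v) t := by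
      have h1 : altM (act κ t) (act κ s) (n + 2) v =
          act κ t (altM (act κ s) (act κ t) (n + 1) v) := rfl
      have h2 : altM (act κ s) (act κ t) (n + 1) v = act κ s (altM (act κ t) (act κ s) n v) := rfl
      rw [h1, act_apply, hts]
      nth_rewrite 1 [h2]
      rw [act_apply, hs]
      ring
    have ev : Even (n + 2) ↔ Even n := by
      rw [Nat.even_add]; simp
    have ev1 : Even (n + 1) ↔ ¬ Even n := Nat.even_add_one
    rw [e1, ih1 s t hs ht hst hts, ih2 t s ht hs hts hst, Vrec (n + 1), Vrec n]
    by_cases h : Even n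
    · simp only [ev, ev1, h, not_true, if_true, if_false]
      ring
    · simp only [ev, ev1, h, not_false_iff, if_true, if_false]
      ring

end rank2

section

variable {B W : Type} [Group W] {M : CoxeterMatrix B}

/-- The entries. -/
noncomputable def kM (M : CoxeterMatrix B) (i j : B) : ℝ :=
  if M i j = 0 then 2 else 2 * Real.cos (Real.pi / M i j)

theorem kM_diag (i : B) : kM M i i = -2 := by
  simp [kM]

theorem kM_symm (i j : B) : kM M i j = kM M j i := by
  rw [kM, kM, M.symmetric i j]

theorem two_le (i j : B) (h : i ≠ j) (h0 : M i j ≠ 0) : 2 ≤ M i j := by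
  have := M.off_diagonal i j h
  omega

theorem kM_nonneg (i j : B) (h : i ≠ j) : 0 ≤ kM M i j := by
  rw [kM]
  split_ifs with h0
  · norm_num
  · have h2 := two_le i j h h0
    apply mul_nonneg (by norm_num)
    apply Real.cos_nonneg_of_neg_pi_div_two_le_of_le
    · have : 0 ≤ Real.pi / M i j := by positivity
      have := Real.pi_pos
      linarith
    · apply div_le_div_of_nonneg_left Real.pi_pos.le (by norm_num)
      exact_mod_cast h2

theorem kM_ge_one (i j : B) (h : i ≠ j) (h2 : M i j ≠ 2) : 1 ≤ kM M i j := by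
  rw [kM]
  split_ifs with h0
  · norm_num
  · have h3 := two_le i j h h0
    have h4 : (3 : ℝ) ≤ M i j := by
      have : 3 ≤ M i j := by omega
      exact_mod_cast this
    have h5 : Real.cos (Real.pi / 3) ≤ Real.cos (Real.pi / M i j) := by
      apply Real.cos_le_cos_of_nonneg_of_le_pi
      · positivity
      · have := Real.pi_pos; linarith
      · apply div_le_div_of_nonneg_left Real.pi_pos.le (by norm_num) h4
    rw [Real.cos_pi_div_three] at h5
    linarith

/-- Complexification. -/
theorem act_ofReal (κ : B → B → ℝ) (i : B) (v : B → ℝ) :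
    (fun t => ((act κ i v t : ℝ) : ℂ)) =
      act (fun a b => ((κ a b : ℝ) : ℂ)) i (fun t => ((v t : ℝ) : ℂ)) := by
  funext t
  rw [act_apply, act_apply]
  push_cast
  ring

theorem act_rel_real (κ : B → B → ℝ) (i j : B) (hi : κ i i = -2) (hj : κ j j = -2) (m : ℕ)
    (hm : 2 ≤ m) (hij : κ i j = 2 * Real.cos (Real.pi / m))
    (hji : κ j i = 2 * Real.cos (Real.pi / m)) : (act κ i * act κ j) ^ m = 1 := by
  set u : ℂ := Complex.exp ((Real.pi / m : ℝ) * Complex.I) with hu
  have hm0 : (m : ℝ) ≠ 0 := by positivity
  have hui : u⁻¹ = Complex.exp (-((Real.pi / m : ℝ) * Complex.I)) := by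
    rw [hu, ← Complex.exp_neg]
  have hsum : ((2 * Real.cos (Real.pi / m) : ℝ) : ℂ) = u + u⁻¹ := by
    rw [hui, hu, Complex.ofReal_mul, Complex.ofReal_cos, Complex.cos]
    push_cast
    ring_nf
  have h1 : u ^ 2 ≠ 1 := by
    rw [hu, ← Complex.exp_nat_mul, Ne, Complex.exp_eq_one_iff]
    rintro ⟨n, hn⟩
    have h2 : (1 : ℂ) / m = n := by
      have h3 : (Real.pi : ℂ) ≠ 0 := by exact_mod_cast Real.pi_ne_zero
      have h4 : (m : ℂ) ≠ 0 := by exact_mod_cast hm0
      push_cast at hn
      have h5 : (2 : ℂ) * Real.pi * Complex.I ≠ 0 := by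
        simp [h3, Complex.I_ne_zero]
      have h6 : (1 / m - n : ℂ) * (2 * Real.pi * Complex.I) = 0 := by
        linear_combination hn
      exact sub_eq_zero.1 ((mul_eq_zero.1 h6).resolve_right h5)
    have h4 : (m : ℂ) ≠ 0 := by exact_mod_cast hm0
    have h7 : (1 : ℂ) = n * m := by
      rw [← h2]; field_simp
    have h8 : (1 : ℤ) = n * m := by exact_mod_cast h7
    have h9 : (m : ℤ) ∣ 1 := Dvd.intro_left n h8.symm
    have h10 := Int.le_of_dvd one_pos h9
    omega
  have h2 : u ^ (2 * m) = 1 := by
    rw [hu, ← Complex.exp_nat_mul, Complex.exp_eq_one_iff]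
    refine ⟨1, ?_⟩
    have h4 : (m : ℂ) ≠ 0 := by exact_mod_cast hm0
    push_cast
    field_simp
  set κC : B → B → ℂ := fun a b => ((κ a b : ℝ) : ℂ) with hκC
  have h3 := act_rel κC i j (by simp [hκC, hi]) (by simp [hκC, hj]) u
    (Complex.exp_ne_zero _) h1 (by simp only [hκC, hij]; exact hsum)
    (by simp only [hκC, hji]; exact hsum) m h2
  ext1 v
  have e1 : ∀ v' : B → ℝ, (fun t => ((act κ i (act κ j v') t : ℝ) : ℂ)) =
      act κC i (act κC j (fun t => ((v' t : ℝ) : ℂ))) := by
    intro v'
    rw [act_ofReal, act_ofReal]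
  have key : ∀ n, (fun t => ((((act κ i * act κ j) ^ n) v t : ℝ) : ℂ)) =
      ((act κC i * act κC j) ^ n) (fun t => ((v t : ℝ) : ℂ)) := by
    intro n
    induction n with
    | zero => rfl
    | succ n ih =>
      rw [pow_succ', pow_succ']
      exact (e1 _).trans (congrArg (fun w => act κC i (act κC j w)) ih)
  have h4 := key m
  rw [h3] at h4
  ext t
  have h5 : ((((act κ i * act κ j) ^ m) v t : ℝ) : ℂ) = ((v t : ℝ) : ℂ) := congrFun h4 t
  show _ = v t
  exact_mod_cast h5

theorem kM_lift (M : CoxeterMatrix B) : M.IsLiftable (act (kM M)) := by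
  intro i j
  by_cases hij : i = j
  · subst hij
    rw [M.diagonal, pow_one, act_sq _ _ (kM_diag i)]
  · by_cases h0 : M i j = 0
    · rw [h0, pow_zero]
    · refine act_rel_real (kM M) i j (kM_diag i) (kM_diag j) (M i j) (two_le i j hij h0) ?_ ?_
      · rw [kM, if_neg h0]
      · rw [kM_symm, kM, if_neg h0]

variable (cs : CoxeterSystem M W)

/-- The numbers game. -/
noncomputable def game : W →* Module.End ℝ (B → ℝ) := cs.lift ⟨act (kM M), kM_lift M⟩

theorem game_simple (i : B) : game cs (cs.simple i) = act (kM M) i :=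
  cs.lift_apply_simple (kM_lift M) i

/-- The positivity sequence. -/
theorem exists_V (m : ℕ) (hm : m ≠ 1) : ∃ V : ℕ → ℝ, V 0 = 0 ∧ V 1 = 1 ∧
    (∀ n, V (n + 2) = (if m = 0 then 2 else 2 * Real.cos (Real.pi / m)) * V (n + 1) - V n) ∧
    (∀ n, 0 < n → (m = 0 ∨ n < m) → 0 < V n) ∧ (∀ n, (m = 0 ∨ n ≤ m) → 0 ≤ V n) := by
  by_cases h0 : m = 0
  · subst h0
    refine ⟨fun n => n, by simp, by simp, fun n => ?_, fun n hn _ => ?_, fun n _ => ?_⟩
    · simp only [if_true]; push_cast; ring
    · simp only; exact_mod_cast hn
    · simp only; positivity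
  · have hm2 : 2 ≤ m := by omega
    have hmr : (0 : ℝ) < m := by positivity
    set θ := Real.pi / m with hθ
    have hθ0 : 0 < θ := by positivity
    have hmθ : m * θ = Real.pi := by rw [hθ]; field_simp
    have hs : 0 < Real.sin θ := by
      apply Real.sin_pos_of_pos_of_lt_pi hθ0
      rw [← hmθ]
      have : (2 : ℝ) ≤ m := by exact_mod_cast hm2
      nlinarith
    refine ⟨fun n => Real.sin (n * θ) / Real.sin θ, by simp, by simp [hs.ne'], fun n => ?_,
      fun n hn hnm => ?_, fun n hnm => ?_⟩
    · rw [if_neg h0]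
      have e1 : ((n + 2 : ℕ) : ℝ) * θ = (n + 1 : ℕ) * θ + θ := by push_cast; ring
      have e2 : (n : ℝ) * θ = (n + 1 : ℕ) * θ - θ := by push_cast; ring
      have e3 : Real.sin (((n + 2 : ℕ) : ℝ) * θ) =
          2 * Real.cos θ * Real.sin (((n + 1 : ℕ) : ℝ) * θ) - Real.sin ((n : ℝ) * θ) := by
        rw [e1, e2, Real.sin_add, Real.sin_sub]
        ring
      simp only [e3]
      ring
    · have hnm' : n < m := hnm.resolve_left h0
      apply div_pos _ hs
      apply Real.sin_pos_of_pos_of_lt_pi
      · have : (0 : ℝ) < n := by exact_mod_cast hn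
        positivity
      · rw [← hmθ]
        have : (n : ℝ) < m := by exact_mod_cast hnm'
        nlinarith
    · have hnm' : n ≤ m := hnm.resolve_left h0
      apply div_nonneg _ hs.le
      apply Real.sin_nonneg_of_nonneg_of_le_pi
      · positivity
      · rw [← hmθ]
        have : (n : ℝ) ≤ m := by exact_mod_cast hnm'
        nlinarith

theorem length_altM_le (x y : B) (n : ℕ) :
    cs.length (altM (cs.simple x) (cs.simple y) n) ≤ n := by
  induction n generalizing x y with
  | zero => simp [altM]
  | succ n ih =>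
    rw [altM]
    have h1 := cs.length_mul_le (cs.simple x) (altM (cs.simple y) (cs.simple x) n)
    rw [cs.length_simple] at h1
    have := ih y x
    omega

/-- The positivity theorem. -/
theorem game_pos (v : B → ℝ) (hv : ∀ i, 0 < v i) (w : W) (s : B)
    (h : cs.length w < cs.length (cs.simple s * w)) : 0 < game cs w v s := by
  induction hN : cs.length w using Nat.strong_induction_on generalizing w s with
  | _ N ih =>
  by_cases hw : w = 1
  · subst hw
    rw [map_one]
    exact hv s
  obtain ⟨t, ht⟩ := cs.exists_leftDescent_of_ne_one hw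
  have ht' : cs.length (cs.simple t * w) < cs.length w := ht
  have hst : s ≠ t := by
    rintro rfl
    omega
  -- the maximal alternating prefix
  set P : ℕ → Prop := fun n => ∃ u : W, w = altM (cs.simple t) (cs.simple s) n * u ∧
    cs.length w = n + cs.length u with hP
  classical
  have hP1 : P 1 := by
    refine ⟨cs.simple t * w, ?_, ?_⟩
    · simp [altM]
    · have := cs.length_simple_mul w t
      omega
  have hPb : ∀ n, P n → n ≤ N := by
    rintro n ⟨u, -, h2⟩
    omega
  set n := Nat.findGreatest P N with hn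
  have hNpos : 1 ≤ N := hPb 1 hP1
  have hPn : P n := Nat.findGreatest_spec hNpos hP1
  have hn1 : 1 ≤ n := Nat.le_findGreatest hNpos hP1
  have hPmax : ¬ P (n + 1) := by
    intro h1
    have := Nat.le_findGreatest (hPb _ h1) h1
    omega
  obtain ⟨u, hu1, hu2⟩ := hPn
  -- length facts
  have lz : ∀ z : B, cs.length u < cs.length (cs.simple z * u) ∨
      cs.length (cs.simple z * u) + 1 = cs.length u := by
    intro z
    have := cs.length_simple_mul u z
    omega
  -- `w` starts with `t`, hence `n < m`
  have hnm : M s t = 0 ∨ n < M s t := by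
    by_contra hcon
    push Not at hcon
    obtain ⟨hm0, hmn⟩ := hcon
    obtain ⟨k, hk⟩ := Nat.exists_eq_add_of_le hmn
    have hrel : altM (cs.simple t) (cs.simple s) (M s t) =
        altM (cs.simple s) (cs.simple t) (M s t) := by
      apply altM_rel
      · exact cs.simple_mul_simple_self t
      · exact cs.simple_mul_simple_self s
      · rw [M.symmetric]; exact cs.simple_mul_simple_pow t s
    obtain ⟨m', hm'⟩ : ∃ m', M s t = m' + 1 := ⟨M s t - 1, by omega⟩
    have h3 : cs.simple s * w = altM (cs.simple t) (cs.simple s) m' *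
        ((if Even (M s t) then altM (cs.simple t) (cs.simple s) k else
          altM (cs.simple s) (cs.simple t) k) * u) := by
      rw [hu1, hk, altM_add, hrel]
      nth_rewrite 1 [hm']
      rw [altM]
      simp only [mul_assoc, cs.simple_mul_simple_cancel_left]
    have h4 : cs.length (cs.simple s * w) ≤ m' + (k + cs.length u) := by
      rw [h3]
      refine (cs.length_mul_le _ _).trans (add_le_add (length_altM_le cs t s m') ?_)
      refine (cs.length_mul_le _ _).trans (add_le_add ?_ le_rfl)
      split_ifs
      · exact length_altM_le cs t s k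
      · exact length_altM_le cs s t k
    omega
  -- last letter
  obtain ⟨n', hn'⟩ : ∃ n', n = n' + 1 := ⟨n - 1, by omega⟩
  have hlast : altM (cs.simple t) (cs.simple s) n =
      altM (cs.simple t) (cs.simple s) n' * (if Even n' then cs.simple t else cs.simple s) := by
    rw [hn', altM_add]
    congr 1
    split_ifs <;> simp [altM]
  have hz1 : cs.length u < cs.length ((if Even n' then cs.simple t else cs.simple s) * u) := by
    have h5 : cs.length w ≤ n' + cs.length ((if Even n' then cs.simple t else cs.simple s) * u) := by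
      rw [hu1, hlast, mul_assoc]
      exact (cs.length_mul_le _ _).trans (add_le_add (length_altM_le cs t s n') le_rfl)
    split_ifs at h5 ⊢ with h6
    · rcases lz t with h7 | h7 <;> omega
    · rcases lz s with h7 | h7 <;> omega
  have hz2 : cs.length u < cs.length ((if Even n' then cs.simple s else cs.simple t) * u) := by
    by_contra hcon
    apply hPmax
    have hb : ∃ z : B, (if Even n' then cs.simple s else cs.simple t) = cs.simple z := by
      split_ifs
      · exact ⟨s, rfl⟩
      · exact ⟨t, rfl⟩
    obtain ⟨z, hz⟩ := hb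
    rw [hz] at hcon
    refine ⟨cs.simple z * u, ?_, ?_⟩
    · rw [altM_add, mul_assoc, hu1]
      congr 1
      have h8 : (if Even n then altM (cs.simple t) (cs.simple s) 1 else
          altM (cs.simple s) (cs.simple t) 1) = cs.simple z := by
        rw [← hz, hn']
        by_cases h9 : Even n'
        · rw [if_neg (by rw [Nat.even_add_one]; simpa using h9), if_pos h9]; simp [altM]
        · rw [if_pos (by rw [Nat.even_add_one]; exact h9), if_neg h9]; simp [altM]
      rw [h8, cs.simple_mul_simple_cancel_left]
    · rcases lz z with h7 | h7 <;> omega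
  have hus : cs.length u < cs.length (cs.simple s * u) := by
    by_cases h9 : Even n'
    · rwa [if_pos h9] at hz2
    · rwa [if_neg h9] at hz1
  have hut : cs.length u < cs.length (cs.simple t * u) := by
    by_cases h9 : Even n'
    · rwa [if_pos h9] at hz1
    · rwa [if_neg h9] at hz2
  have ps := ih (cs.length u) (by omega) u s hus rfl
  have pt := ih (cs.length u) (by omega) u t hut rfl
  -- the rank two computation
  obtain ⟨V, V0, V1, Vrec, Vpos, Vnn⟩ := exists_V (M s t) (M.off_diagonal s t hst)
  have hr := rank2 (kM M) _ V V0 V1 Vrec (game cs u v) n s t (kM_diag s) (kM_diag t)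
    (by rw [kM]) (by rw [kM_symm, kM])
  have e1 : game cs w v s = (altM (act (kM M) t) (act (kM M) s) n (game cs u v)) s := by
    rw [hu1, map_mul, altM_hom, game_simple, game_simple]
    rfl
  rw [e1, hr]
  have q1 : 0 < V n := Vpos n (by omega) hnm
  have q2 : 0 ≤ V (n + 1) := Vnn (n + 1) (by omega)
  split_ifs
  · exact add_pos_of_nonneg_of_pos (mul_nonneg q2 ps.le) (mul_pos q1 pt)
  · exact add_pos_of_nonneg_of_pos (mul_nonneg q2 pt.le) (mul_pos q1 ps)

/-- The positivity criterion. -/
theorem game_iff (v : B → ℝ) (hv : ∀ i, 0 < v i) (w : W) (s : B) :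
    cs.length w < cs.length (cs.simple s * w) ↔ 0 < game cs w v s := by
  constructor
  · exact game_pos cs v hv w s
  · intro h
    by_contra hcon
    have h1 := cs.length_simple_mul w s
    have h2 : cs.length (cs.simple s * w) < cs.length (cs.simple s * (cs.simple s * w)) := by
      rw [cs.simple_mul_simple_cancel_left]; omega
    have h3 := game_pos cs v hv _ s h2
    rw [map_mul, game_simple] at h3
    have h4 : (act (kM M) s * game cs w) v s = act (kM M) s (game cs w v) s := rfl
    rw [h4, act_apply, kM_diag] at h3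
    linarith

end

end Pool.Agent.FBuild
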